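import Pool.Agent.HP778.KZ5
import Pool.Agent.H340R2.LW
import Pool.Agent.T6.H39.AG.Main

/-!
# Periods of dimension one in finitely generated algebras of complex numbers

Let `𝒫₁` be the space of all linear combinations, with algebraic coefficients, of the absolutely
convergent integrals `∫_σ P(x) / Q(x) dx` of the problem in dimension `n = 1`. If `e` is a period, then
for all periods `z_2, …, z_r` the whole algebra generated by `z_1 = e, z_2, …, z_r` over the field of
algebraic numbers consists of periods. We show that `𝒫₁` contains only few elements of any such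
algebra. Let `z_1, …, z_r` be ARBITRARY complex numbers, let `t` be the transcendence degree of the
algebra `R` which they generate, and `R_n` the space of the numbers `P(z_1, …, z_r)`, `deg P ≤ n`, so that
`dim R_n` has the order of magnitude `n ^ t`. Then for all complex numbers `y_1, …, y_m` the elements of
`𝒫₁` of the form `y_1 x_1 + ⋯ + y_m x_m`, `x_j ∈ R_n`, form a space of dimension at most
`C (m + √m n ^ (t / 2))`, where `C` depends only on `z_1, …, z_r`. So if one of the `z_i` is
transcendental then `𝒫₁` contains asymptotically nothing of the space `y_1 R_n + ⋯ + y_m R_n`, uniformly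
in `y_1, …, y_m`. No hypothesis of algebraic independence is needed: for `R` generated by `e` and `π`,
say, it is not known whether `t` is `1` or `2`.

The proof: the inequality `dim A * dim (F ∩ 𝒫₁) ≤ dim (A F) + dim A (dim A - 1)` for finite dimensional
spaces `A`, `F` (`SparsePolynomials`, from the linear subgroup theorem of the starting files), for
`A = R_k`, and two-sided bounds for the growth of `R` from Noether's normalization.
-/

set_option autoImplicit false

namespace Pool.Agent.Results.MP_2cf66e_nt.FinitelyGenerated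

open Module Finset Filter Pool.Agent.HP778 Pool.Agent.HP778.KZ
open Pool.Agent.H301R2.SSE (QB mem_QB Lt)
open Pool.Agent.T6.H39.AG (gen)

/-- `R_n`: the space spanned by the products of `n` of the numbers `1, z_1, …, z_r`, that is the space
of the numbers `P(z_1, …, z_r)`, `P` a polynomial of degree at most `n` with algebraic coefficients -/
noncomputable def upTo {r : ℕ} (z : Fin r → ℂ) (n : ℕ) : Submodule (algebraicClosure ℚ ℂ) ℂ :=
  Submodule.span (algebraicClosure ℚ ℂ) (insert 1 (Set.range z)) ^ n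

theorem hyp : Hyper (k := QB) (Ω := ℂ) periods1 := fun κ _ d x a hx ha hxa hcol =>
  hyper_Lt κ d x a hx (fun i j => periods1_le (ha i j)) hxa hcol

theorem e_tr : Transcendental ℚ ((Real.exp 1 : ℝ) : ℂ) :=
  ofReal_transcendental Pool.Agent.H340R2.LW.transcendental_exp_one

theorem indep_pow {θ : ℂ} (hθ : Transcendental ℚ θ) (D : ℕ) :
    LinearIndependent QB (fun j : Fin (D + 1) => θ ^ (j : ℕ)) := by
  have h := ((transcendental_iff_injective.mp (tr_QB hθ)))
  have h2 : LinearIndependent QB (fun n : ℕ => θ ^ n) := by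
    have h3 := (Polynomial.basisMonomials QB).linearIndependent.map'
      (Polynomial.aeval θ : Polynomial QB →ₐ[QB] ℂ).toLinearMap
      (LinearMap.ker_eq_bot.mpr h)
    refine (linearIndependent_equiv' (Equiv.refl ℕ) ?_).mp h3
    funext n
    simp [Polynomial.coe_basisMonomials, Polynomial.aeval_monomial]
  exact h2.comp _ Fin.val_injective

theorem dim_ge {r : ℕ} (z : Fin r → ℂ) {i : Fin r} (hi : Transcendental ℚ (z i)) (n : ℕ) :
    n + 1 ≤ finrank QB (upTo z n) := by
  have h1 := finrank_span_eq_card (indep_pow hi n)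
  rw [Fintype.card_fin] at h1
  rw [← h1]
  have hfd : FiniteDimensional QB (upTo z n) := Pool.Agent.T6.H39.AG.pow_fd z n
  apply Submodule.finrank_mono
  rw [Submodule.span_le]
  rintro _ ⟨j, rfl⟩
  exact Pool.Agent.T6.H39.AG.pow_mono z (Nat.le_of_lt_succ j.2)
    (Submodule.pow_mem_pow _ (Pool.Agent.T6.H39.AG.mem_gen z i) _)

/-- **Theorem.** `e` is transcendental. Let `z_1, …, z_r` be complex numbers and `t` the transcendence
degree of the algebra which they generate over the field of algebraic numbers; all dimensions are over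
this field. There is `C` with

(1) `(n + 1) ^ t / C ≤ dim R_n ≤ C (n + 1) ^ t` for all `n`;

(2) for every finite dimensional space `Y` of complex numbers and every `n` the elements of `𝒫₁` which
are linear combinations of elements of `R_n` with coefficients in `Y` form a space whose dimension `s`
satisfies `s ^ 2 ≤ C (m ^ 2 + m (n + 1) ^ t)`, `m = dim Y`;

(3) if one of the `z_i` is transcendental, then `t ≥ 1`, and for all `m` and `ε > 0` and all large `n`
this dimension is at most `ε dim R_n` for all `Y` with `dim Y ≤ m`. -/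
theorem result : Transcendental ℚ ((Real.exp 1 : ℝ) : ℂ) ∧
    ∀ (r : ℕ) (z : Fin r → ℂ), ∃ t C : ℕ,
      Algebra.trdeg (algebraicClosure ℚ ℂ)
        (Algebra.adjoin (algebraicClosure ℚ ℂ) (Set.range z)) = t ∧
      (∀ n : ℕ, (n + 1) ^ t ≤ C * finrank (algebraicClosure ℚ ℂ) (upTo z n) ∧
        finrank (algebraicClosure ℚ ℂ) (upTo z n) ≤ C * (n + 1) ^ t) ∧
      (∀ Y : Submodule (algebraicClosure ℚ ℂ) ℂ, FiniteDimensional (algebraicClosure ℚ ℂ) Y →
        ∀ n : ℕ, finrank (algebraicClosure ℚ ℂ)
          (Y * upTo z n ⊓ periods1 : Submodule (algebraicClosure ℚ ℂ) ℂ) ^ 2 ≤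
            C * (finrank (algebraicClosure ℚ ℂ) Y ^ 2 +
              finrank (algebraicClosure ℚ ℂ) Y * (n + 1) ^ t)) ∧
      ((∃ i, Transcendental ℚ (z i)) → 1 ≤ t ∧
        ∀ (m : ℕ) (ε : ℝ), 0 < ε → ∀ᶠ n : ℕ in atTop,
          ∀ Y : Submodule (algebraicClosure ℚ ℂ) ℂ, FiniteDimensional (algebraicClosure ℚ ℂ) Y →
            finrank (algebraicClosure ℚ ℂ) Y ≤ m →
            (finrank (algebraicClosure ℚ ℂ)
              (Y * upTo z n ⊓ periods1 : Submodule (algebraicClosure ℚ ℂ) ℂ) : ℝ) ≤
                ε * finrank (algebraicClosure ℚ ℂ) (upTo z n)) := by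
  refine ⟨e_tr, fun r z => ?_⟩
  obtain ⟨t, C, h1, h2, h3⟩ := Pool.Agent.T6.H39.AG.main hyp z
  have h2' : ∀ n : ℕ, (n + 1) ^ t ≤ C * finrank QB (upTo z n) ∧
      finrank QB (upTo z n) ≤ C * (n + 1) ^ t := h2
  have h3' : ∀ Y : Submodule QB ℂ, FiniteDimensional QB Y → ∀ n : ℕ,
      finrank QB (Y * upTo z n ⊓ periods1 : Submodule QB ℂ) ^ 2 ≤
        C * (finrank QB Y ^ 2 + finrank QB Y * (n + 1) ^ t) := h3
  refine ⟨t, C, h1, h2', h3', fun ⟨i, hi⟩ => ⟨?_, fun m ε hε => ?_⟩⟩
  · by_contra ht
    have ht0 : t = 0 := by omega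
    have h4 := (h2' C).2
    rw [ht0, pow_zero, mul_one] at h4
    have h5 := dim_ge z hi C
    omega
  · have h4 : Tendsto (fun n : ℕ => ε ^ 2 * ((n : ℝ) + 1)) atTop atTop :=
      Tendsto.const_mul_atTop (by positivity)
        (tendsto_atTop_add_const_right _ _ tendsto_natCast_atTop_atTop)
    filter_upwards [h4.eventually_ge_atTop ((C : ℝ) * ((m : ℝ) ^ 2 + m) * C)] with n hn Y hY hm
    obtain ⟨s, hs⟩ : ∃ s, s = finrank QB (Y * upTo z n ⊓ periods1 : Submodule QB ℂ) := ⟨_, rfl⟩
    obtain ⟨d, hd⟩ : ∃ d, d = finrank QB (upTo z n) := ⟨_, rfl⟩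
    have h5 := h3' Y hY n
    have h6 := (h2' n).1
    have h7 := dim_ge z hi n
    rw [← hs] at h5
    rw [← hd] at h6 h7
    have h8 : (s : ℝ) ^ 2 ≤ (C : ℝ) * ((m : ℝ) ^ 2 + m) * C * d := by
      have h9 : s ^ 2 ≤ C * ((m ^ 2 + m) * (C * d)) := by
        refine h5.trans (Nat.mul_le_mul_left _ ?_)
        have h10 : 1 ≤ (n + 1) ^ t := Nat.one_le_pow _ _ (Nat.succ_pos _)
        calc finrank QB Y ^ 2 + finrank QB Y * (n + 1) ^ t
            ≤ m ^ 2 * (n + 1) ^ t + m * (n + 1) ^ t := by
              apply Nat.add_le_add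
              · calc finrank QB Y ^ 2 ≤ m ^ 2 := Nat.pow_le_pow_left hm 2
                  _ = m ^ 2 * 1 := (mul_one _).symm
                  _ ≤ _ := Nat.mul_le_mul_left _ h10
              · exact Nat.mul_le_mul_right _ hm
          _ = (m ^ 2 + m) * (n + 1) ^ t := by ring
          _ ≤ (m ^ 2 + m) * (C * d) := Nat.mul_le_mul_left _ h6
      have h11 : ((s ^ 2 : ℕ) : ℝ) ≤ ((C * ((m ^ 2 + m) * (C * d)) : ℕ) : ℝ) := by
        exact_mod_cast h9
      push_cast at h11
      linarith
    have h12 : ((n : ℝ) + 1) ≤ d := by exact_mod_cast h7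
    have h13 : (s : ℝ) ^ 2 ≤ (ε * d) ^ 2 := by
      calc (s : ℝ) ^ 2 ≤ (C : ℝ) * ((m : ℝ) ^ 2 + m) * C * d := h8
        _ ≤ ε ^ 2 * ((n : ℝ) + 1) * d := mul_le_mul_of_nonneg_right hn (Nat.cast_nonneg _)
        _ ≤ ε ^ 2 * d * d := by
            apply mul_le_mul_of_nonneg_right _ (Nat.cast_nonneg _)
            exact mul_le_mul_of_nonneg_left h12 (by positivity)
        _ = (ε * d) ^ 2 := by ring
    have h14 : (s : ℝ) ≤ ε * d := by
      apply le_of_sq_le_sq h13
      positivity
    rw [hs, hd] at h14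
    exact h14

end Pool.Agent.Results.MP_2cf66e_nt.FinitelyGenerated
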