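import Pool.Agent.HP778.KZ5
import Pool.Agent.T6.H39.AG.Frac

/-!
# Periods of dimension one over finitely generated fields of complex numbers

Let `𝒫₁` be the space of all linear combinations, with algebraic coefficients, of the absolutely
convergent integrals `∫_σ P(x) / Q(x) dx` of the problem in dimension `n = 1`. Let `z_1, …, z_r` be
ARBITRARY complex numbers (for instance `z_1 = e`), `t` the transcendence degree of the field which they
generate over the field of algebraic numbers, and `R_n` the space of the numbers `P(z_1, …, z_r)`,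
`deg P ≤ n`. For complex numbers `y_1, …, y_m` we consider the elements of `𝒫₁` of the form

  `f = (y_1 P_1(z) + ⋯ + y_m P_m(z)) / Q(z)`,  `deg P_j ≤ n`, `deg Q ≤ n`,

where the denominator `Q(z) ≠ 0` may be different for each `f`. (For `m = 1`, `y_1 = 1` these are the
elements of `𝒫₁` in the field `ℚ̄(z_1, …, z_r)` of degree at most `n`.) Although the numbers of this form
span a space of infinite dimension if `t ≥ 1`, `n ≥ 1`, those which are in `𝒫₁` span a space of dimension at
most `(1 + ε) m + C (n + 1) ^ t`, for every `ε > 0`, where `C` depends only on `ε` and `z_1, …, z_r`: up to the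
factor `1 + ε` each `y_j` contributes only one dimension. If the `y_j` are linearly independent elements of
`𝒫₁` then they are themselves of this form. In this sense `𝒫₁` and the elements of bounded degree of a
finitely generated field are almost linearly disjoint.

The proof: let `f_1, …, f_s` be linearly independent elements of `𝒫₁` of this form, `F` their span,
`A = R_{n + b}`. Then `f_i A` contains `f_i Q_i R_b`, which is in `∑ y_j A`, so that `dim (A F)` is at most
`m dim A + s (dim A - dim R_b)`. The inequality
`dim A * dim (F ∩ 𝒫₁) ≤ dim (A F) + dim A (dim A - 1)` (`SparsePolynomials`, from the linear subgroup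
theorem of the starting files) gives `s dim R_b ≤ dim A (m + dim A)`; finally `b ≤ C n` is chosen by the
pigeonhole principle such that `dim A ≤ (1 + ε) dim R_b`.
-/

set_option autoImplicit false

namespace Pool.Agent.Results.MP_2cf66e_nt.FinitelyGeneratedFields

open Module Finset Pool.Agent.HP778 Pool.Agent.HP778.KZ
open Pool.Agent.H301R2.SSE (QB mem_QB Lt)

/-- `R_n`: the space spanned by the products of `n` of the numbers `1, z_1, …, z_r`, that is the space
of the numbers `P(z_1, …, z_r)`, `P` a polynomial of degree at most `n` with algebraic coefficients -/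
noncomputable def upTo {r : ℕ} (z : Fin r → ℂ) (n : ℕ) : Submodule (algebraicClosure ℚ ℂ) ℂ :=
  Submodule.span (algebraicClosure ℚ ℂ) (insert 1 (Set.range z)) ^ n

/-- the space spanned by the elements `f` of `𝒫₁` with `q f ∈ Y R_n` for some nonzero `q` in `R_n`
(`Y R_n` is the span of the products) -/
noncomputable def lowDegree {r : ℕ} (z : Fin r → ℂ) (Y : Submodule (algebraicClosure ℚ ℂ) ℂ)
    (n : ℕ) : Submodule (algebraicClosure ℚ ℂ) ℂ :=
  Submodule.span (algebraicClosure ℚ ℂ)
    {f | f ∈ periods1 ∧ ∃ q ∈ upTo z n, q ≠ 0 ∧ q * f ∈ Y * upTo z n}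

theorem hyp : Hyper (k := QB) (Ω := ℂ) periods1 := fun κ _ d x a hx ha hxa hcol =>
  hyper_Lt κ d x a hx (fun i j => periods1_le (ha i j)) hxa hcol

/-- **Theorem.** Let `z_1, …, z_r` be complex numbers and `t` the transcendence degree of the algebra
which they generate over the field of algebraic numbers. For every `ε > 0` there is `C` such that for all
finite dimensional spaces `Y` of complex numbers (over the field of algebraic numbers) and all `n` the
elements of `𝒫₁` which have the form `p / q` with `p ∈ Y R_n` and a nonzero `q ∈ R_n` (depending on the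
element) span a space of dimension at most `(1 + ε) dim Y + C (n + 1) ^ t`. This space contains
`Y ∩ 𝒫₁`. -/
theorem result (r : ℕ) (z : Fin r → ℂ) : ∃ t : ℕ,
    Algebra.trdeg (algebraicClosure ℚ ℂ)
      (Algebra.adjoin (algebraicClosure ℚ ℂ) (Set.range z)) = t ∧
    ∀ ε : ℝ, 0 < ε → ∃ C : ℝ, 0 ≤ C ∧
      ∀ (Y : Submodule (algebraicClosure ℚ ℂ) ℂ), FiniteDimensional (algebraicClosure ℚ ℂ) Y →
        ∀ n : ℕ, Y ⊓ periods1 ≤ lowDegree z Y n ∧
          FiniteDimensional (algebraicClosure ℚ ℂ) (lowDegree z Y n) ∧
          (finrank (algebraicClosure ℚ ℂ) (lowDegree z Y n) : ℝ) ≤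
            (1 + ε) * finrank (algebraicClosure ℚ ℂ) Y + C * ((n : ℝ) + 1) ^ t := by
  obtain ⟨t, h1, h2⟩ := Pool.Agent.T6.H39.AG.frac hyp z
  refine ⟨t, h1, fun ε hε => ?_⟩
  obtain ⟨C, hC, h3⟩ := h2 ε hε
  refine ⟨C, hC, fun Y hY n => ⟨fun x hx => Submodule.subset_span ⟨hx.2, 1, ?_, one_ne_zero, ?_⟩,
    h3 Y hY n⟩⟩
  · exact Pool.Agent.T6.H39.AG.one_mem_pow z n
  · have h4 := Submodule.mul_mem_mul hx.1 (Pool.Agent.T6.H39.AG.one_mem_pow z n)
    rw [one_mul]
    rw [mul_one] at h4
    exact h4

end Pool.Agent.Results.MP_2cf66e_nt.FinitelyGeneratedFields
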