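import Pool.Agent.HP778.KZ5
import Pool.Agent.T6.H39.TR.Disj

/-!
# The powers of `e` and the periods of dimension one are linearly disjoint up to finite dimension

Let `𝒫₁` be the space of all linear combinations, with algebraic coefficients, of the absolutely
convergent integrals `∫_σ P(x) / Q(x) dx` of the problem in dimension `n = 1`. If `e` is a period then
the algebra of all periods contains the space `𝒫₁ + e 𝒫₁ + ⋯ + e ^ D 𝒫₁` for all `D`. We show that this
sum is direct up to finite dimension, more precisely that `1, e, ..., e ^ D` (and any other finite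
dimensional space `U` of complex numbers, for instance a space of values of rational functions of `e`) and
`𝒫₁` are linearly disjoint over the field of algebraic numbers modulo a subspace `W` of `𝒫₁` of
dimension at most `d ^ 2 (d - 1)`, `d = dim U`: if `∑ x_i y_i ∈ U W` with linearly independent
`x_i ∈ U` and arbitrary `y_i ∈ 𝒫₁` then all the `y_i` are in `W`. In other words the multiplication
`U ⊗ (𝒫₁ / W) → ℂ / U W` is injective. The starting result `MP_2cf66e_nt.OneVariablePeriods` is about the
products `x y` with a single `y`.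

The proof. By partial fractions, `𝒫₁` is contained in the space of linear forms in `1` and logarithms
of algebraic numbers (starting files). The relations `∑ b_j y_j = 0` between the elements of a basis of
`U` with coefficients in `𝒫₁` form a space of dimension at most `d (d - 1)` (hyperplane case of the
linear subgroup theorem of Waldschmidt and Roy, starting files); `W` is the space spanned by the
coordinates of all these relations.
-/

set_option autoImplicit false

namespace Pool.Agent.Results.MP_2cf66e_nt.LinearDisjointness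

open Module Finset Pool.Agent.HP778 Pool.Agent.HP778.KZ
open Pool.Agent.H301R2.SSE (QB mem_QB Lt)
open Pool.Agent.T6.H39.TR

/-- The vectors `(y_0, ..., y_D)` of elements of `𝒫₁` with `y_0 + y_1 e + ⋯ + y_D e ^ D = 0`. -/
noncomputable def relationsE (D : ℕ) : Submodule (algebraicClosure ℚ ℂ) (Fin (D + 1) → ℂ) where
  carrier := {y | (∀ j, y j ∈ periods1) ∧ ∑ j : Fin (D + 1),
    ((Real.exp 1 : ℝ) : ℂ) ^ (j : ℕ) * y j = 0}
  add_mem' := by
    rintro a b ⟨ha, ha'⟩ ⟨hb, hb'⟩
    refine ⟨fun i => periods1.add_mem (ha i) (hb i), ?_⟩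
    simp only [Pi.add_apply, mul_add, Finset.sum_add_distrib, ha', hb', add_zero]
  zero_mem' := ⟨fun _ => periods1.zero_mem, by simp⟩
  smul_mem' := by
    rintro c a ⟨ha, ha'⟩
    refine ⟨fun i => periods1.smul_mem c (ha i), ?_⟩
    simp only [Pi.smul_apply, mul_smul_comm]
    rw [← Finset.smul_sum, ha', smul_zero]

theorem e_tr : Transcendental ℚ ((Real.exp 1 : ℝ) : ℂ) :=
  ofReal_transcendental Pool.Agent.H340R2.LW.transcendental_exp_one

theorem hyp : Hyper (k := QB) (Ω := ℂ) periods1 := Hyper.mono' periods1_le hyper_Lt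

theorem indep_powers (D : ℕ) :
    LinearIndependent QB (fun j : Fin (D + 1) => ((Real.exp 1 : ℝ) : ℂ) ^ (j : ℕ)) := by
  have h := ((transcendental_iff_injective.mp (tr_QB e_tr)))
  have h2 : LinearIndependent QB (fun n : ℕ => ((Real.exp 1 : ℝ) : ℂ) ^ n) := by
    have h3 := (Polynomial.basisMonomials QB).linearIndependent.map'
      (Polynomial.aeval ((Real.exp 1 : ℝ) : ℂ) : Polynomial QB →ₐ[QB] ℂ).toLinearMap
      (LinearMap.ker_eq_bot.mpr h)
    refine (linearIndependent_equiv' (Equiv.refl ℕ) ?_).mp h3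
    funext n
    simp [Polynomial.coe_basisMonomials, Polynomial.aeval_monomial]
  exact h2.comp _ Fin.val_injective

theorem basis_data (U : Submodule QB ℂ) [FiniteDimensional QB U] :
    ∃ d, finrank QB U = d ∧ ∃ b : Fin d → ℂ, LinearIndependent QB b ∧
      Submodule.span QB (Set.range b) = U := by
  let b := Module.finBasis QB U
  refine ⟨_, rfl, fun i => (b i : ℂ), b.linearIndependent.map' U.subtype U.ker_subtype, ?_⟩
  have h1 : Set.range (fun i => (b i : ℂ)) = U.subtype '' Set.range b := by
    rw [← Set.range_comp]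
    rfl
  rw [h1, ← Submodule.map_span, b.span_eq, Submodule.map_top, Submodule.range_subtype]

/-- an independent family can be completed by a dual family of functionals: the coordinates -/
theorem dual_family {m : ℕ} {x : Fin m → ℂ} (hx : LinearIndependent QB x)
    {d : ℕ} {b : Fin d → ℂ}
    {W : Submodule QB ℂ} {c : Fin m → Fin d → QB} (hc : ∀ i, ∑ j, c i j • b j = x i)
    {y : Fin m → ℂ} (h : ∀ j, ∑ i, c i j • y i ∈ W) (i : Fin m) : y i ∈ W := by
  classical
  -- the rows of `c` are independent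
  have hrow : LinearIndependent QB c := by
    rw [Fintype.linearIndependent_iff]
    intro g hg
    apply Fintype.linearIndependent_iff.mp hx g
    have h1 : ∀ j, ∑ i, g i * c i j = 0 := by
      intro j
      have := congrFun hg j
      simpa only [Finset.sum_apply, Pi.smul_apply, smul_eq_mul, Pi.zero_apply] using this
    calc ∑ i, g i • x i = ∑ i, g i • ∑ j, c i j • b j := by
          exact Finset.sum_congr rfl fun i _ => by rw [hc i]
      _ = ∑ j, (∑ i, g i * c i j) • b j := by
        simp only [Finset.smul_sum, Finset.sum_smul, smul_smul]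
        rw [Finset.sum_comm]
      _ = 0 := Finset.sum_eq_zero fun j _ => by rw [h1 j, zero_smul]
  -- a left inverse
  obtain ⟨g, hg⟩ := LinearMap.exists_extend
    ((Finsupp.lapply i : (Fin m →₀ QB) →ₗ[QB] QB) ∘ₗ hrow.repr)
  have hg' : ∀ i', g (c i') = if i' = i then 1 else 0 := by
    intro i'
    have h1 : c i' ∈ Submodule.span QB (Set.range c) := Submodule.subset_span ⟨i', rfl⟩
    have h2 := congrArg (fun f : Submodule.span QB (Set.range c) →ₗ[QB] QB => f ⟨c i', h1⟩) hg
    simp only [LinearMap.comp_apply, Submodule.subtype_apply, Finsupp.lapply_apply] at h2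
    rw [h2, hrow.repr_eq_single i' ⟨c i', h1⟩ rfl, Finsupp.single_apply]
  have hexp : ∀ v : Fin d → QB, g v = ∑ j, v j * g (Pi.single j 1) := by
    intro v
    have h1 : v = ∑ j, v j • (Pi.single j (1 : QB) : Fin d → QB) := by
      funext j
      rw [Finset.sum_apply, Finset.sum_eq_single j]
      · simp
      · intro j' _ hj'
        simp [Pi.single_eq_of_ne hj'.symm]
      · intro h; exact absurd (Finset.mem_univ _) h
    conv_lhs => rw [h1]
    rw [map_sum]
    exact Finset.sum_congr rfl fun j _ => by rw [map_smul, smul_eq_mul]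
  have h3 : y i = ∑ j, g (Pi.single j 1) • ∑ i', c i' j • y i' := by
    simp only [Finset.smul_sum, smul_smul]
    rw [Finset.sum_comm]
    have h4 : ∀ i', ∑ j, (g (Pi.single j 1) * c i' j) • y i' = (if i' = i then (1 : QB) else 0) • y i' := by
      intro i'
      rw [← Finset.sum_smul, ← hg' i', hexp (c i')]
      congr 1
      exact Finset.sum_congr rfl fun j _ => mul_comm _ _
    rw [Finset.sum_congr rfl fun i' _ => h4 i', Finset.sum_eq_single i]
    · rw [if_pos rfl, one_smul]
    · intro i' _ hi'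
      rw [if_neg hi', zero_smul]
    · intro h; exact absurd (Finset.mem_univ _) h
  rw [h3]
  exact Submodule.sum_mem _ fun j _ => Submodule.smul_mem _ _ (h j)

/-- **Main result.** Let `𝒫₁ = periods1` and let `U` be a finite dimensional space of complex numbers
over the field of algebraic numbers, `d = dim U`; for instance the span of `1, e, ..., e ^ D`, `d = D + 1`.

There is a subspace `W` of `𝒫₁` of dimension at most `d ^ 2 (d - 1)` with the following properties:

(1) (linear disjointness modulo `W`) if `x_1, ..., x_m ∈ U` are linearly independent, `y_i ∈ 𝒫₁`,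
and `∑ x_i y_i ∈ U W` then all the `y_i` are in `W`;

(2) if `y_1, ..., y_m ∈ 𝒫₁` are linearly independent modulo `W`, `x_i ∈ U` are not all zero,
then `∑ x_i y_i ∉ U W`;

(3) if `y_1, ..., y_m ∈ 𝒫₁` are linearly independent modulo `W`, and `P_1, ..., P_m`, `Q ≠ 0` are
elements of `U` such that the quotients `P_i / Q` are not all algebraic, then `∑ (P_i / Q) y_i ∉ 𝒫₁`,
and if `Q = 1` this number is not in `𝒫₁ + U W`.

(4) For every `D` the vectors `(y_0, ..., y_D)` of elements of `𝒫₁` with `∑ e ^ j y_j = 0` form a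
space of dimension at most `D (D + 1)`. In particular the intersection of `𝒫₁` with
`e 𝒫₁ + ⋯ + e ^ D 𝒫₁` has dimension at most `D (D + 1)`, and so has the intersection of `e ^ D 𝒫₁`
with `𝒫₁ + e 𝒫₁ + ⋯ + e ^ (D - 1) 𝒫₁`.

(5) `𝒫₁` has infinite dimension. -/
theorem result :
    (∀ U : Submodule (algebraicClosure ℚ ℂ) ℂ, FiniteDimensional (algebraicClosure ℚ ℂ) U →
      ∃ W : Submodule (algebraicClosure ℚ ℂ) ℂ, W ≤ periods1 ∧
        FiniteDimensional (algebraicClosure ℚ ℂ) W ∧
        finrank (algebraicClosure ℚ ℂ) W ≤ finrank (algebraicClosure ℚ ℂ) U ^ 2 *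
          (finrank (algebraicClosure ℚ ℂ) U - 1) ∧
        (∀ (m : ℕ) (x y : Fin m → ℂ), (∀ i, x i ∈ U) →
          LinearIndependent (algebraicClosure ℚ ℂ) x → (∀ i, y i ∈ periods1) →
          ∑ i, x i * y i ∈ U * W → ∀ i, y i ∈ W) ∧
        (∀ (m : ℕ) (y : Fin m → ℂ), (∀ i, y i ∈ periods1) →
          (∀ c : Fin m → algebraicClosure ℚ ℂ, ∑ i, c i • y i ∈ W → c = 0) →
          (∀ x : Fin m → ℂ, (∀ i, x i ∈ U) → x ≠ 0 → ∑ i, x i * y i ∉ U * W) ∧
          (∀ (P : Fin m → ℂ) (Q : ℂ), (∀ i, P i ∈ U) → Q ∈ U → Q ≠ 0 →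
            (∃ i, Transcendental ℚ (P i / Q)) →
            ∑ i, P i / Q * y i ∉ periods1 ∧
            (Q = 1 → ∑ i, P i * y i ∉ periods1 ⊔ U * W)))) ∧
    (∀ D : ℕ, FiniteDimensional (algebraicClosure ℚ ℂ) (relationsE D) ∧
      finrank (algebraicClosure ℚ ℂ) (relationsE D) ≤ D * (D + 1)) ∧
    (∀ D : ℕ, ∀ j₀ : Fin (D + 1), ∃ W : Submodule (algebraicClosure ℚ ℂ) ℂ,
      FiniteDimensional (algebraicClosure ℚ ℂ) W ∧
      finrank (algebraicClosure ℚ ℂ) W ≤ D * (D + 1) ∧
      ∀ z : ℂ, z ∈ W ↔ (∃ y₀ ∈ periods1, z = ((Real.exp 1 : ℝ) : ℂ) ^ (j₀ : ℕ) * y₀) ∧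
        ∃ y : Fin (D + 1) → ℂ, (∀ j, y j ∈ periods1) ∧ y j₀ = 0 ∧
          z = ∑ j : Fin (D + 1), ((Real.exp 1 : ℝ) : ℂ) ^ (j : ℕ) * y j) ∧
    ¬ Module.Finite (algebraicClosure ℚ ℂ) periods1 := by
  classical
  have hrel : ∀ D : ℕ, RW periods1 (fun j : Fin (D + 1) => ((Real.exp 1 : ℝ) : ℂ) ^ (j : ℕ)) ⊥ =
      relationsE D := by
    intro D
    ext y
    rw [mem_RW, Submodule.mem_bot]
    rfl
  have hrelfd : ∀ D : ℕ, FiniteDimensional QB (relationsE D) ∧
      finrank QB (relationsE D) ≤ D * (D + 1) := by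
    intro D
    obtain ⟨h1, h2⟩ := RW_fd hyp (indep_powers D) ⊥
    rw [hrel D] at h1 h2
    refine ⟨h1, h2.trans (le_of_eq ?_)⟩
    rw [finrank_bot, add_zero, Nat.add_sub_cancel, mul_comm]
  refine ⟨fun U hU => ?_, hrelfd, fun D j₀ => ?_, periods1_infinite⟩
  · obtain ⟨d, hd, b, hb, hbU⟩ := basis_data U
    obtain ⟨hfd, hfr⟩ := RW_fd hyp hb ⊥
    rw [finrank_bot, add_zero] at hfr
    refine ⟨ent (RW periods1 b ⊥), ent_le fun A hA j => hA.1 j, inferInstance, ?_, ?_, ?_⟩
    · rw [hd]
      refine (finrank_ent_le _).trans ?_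
      calc d * finrank QB (RW periods1 b ⊥) ≤ d * (d * (d - 1)) := Nat.mul_le_mul_left _ hfr
        _ = d ^ 2 * (d - 1) := by ring
    · intro m x y hx hxli hy h i
      rw [← hbU] at h hx
      choose c hc using fun i => (Submodule.mem_span_range_iff_exists_fun QB).mp (hx i)
      have h1 : ∑ i, x i * y i = ∑ j, b j * ∑ i, c i j • y i := by
        simp only [Finset.mul_sum]
        rw [Finset.sum_comm]
        exact Finset.sum_congr rfl fun i _ => expand (c i) (x i) (y i) (hc i).symm
      rw [h1] at h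
      exact dual_family hxli hc
        (disj_basis (V := periods1) (fun j => Submodule.sum_mem _ fun i _ =>
          Submodule.smul_mem _ _ (hy i)) h) i
    · intro m y hy hli
      refine ⟨fun x hx hx0 h => hx0 ?_, fun P Q hP hQ hQ0 hPQ => ?_⟩
      · rw [← hbU] at h hx
        exact disj_gen hy hli hx h
      · obtain ⟨i₀, hi₀⟩ := hPQ
        have hne : ∀ a : QB, algebraMap QB ℂ a * Q ≠ P i₀ := by
          intro a h
          apply hi₀
          rw [← h, mul_div_cancel_right₀ _ hQ0]
          exact mem_QB.mp a.2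
        rw [← hbU] at hP hQ
        refine ⟨fun h => ?_, fun hQ1 h => ?_⟩
        · refine disj_quot (V := periods1) hy hli hP hQ hQ0 hne h (Submodule.zero_mem _) ?_
          rw [add_zero, Finset.mul_sum]
          refine Finset.sum_congr rfl fun i _ => ?_
          field_simp
        · rw [← hbU] at h
          obtain ⟨v, hv, u, hu, hvu⟩ := Submodule.mem_sup.mp h
          refine disj_quot (V := periods1) hy hli hP hQ hQ0 hne hv hu ?_
          rw [hQ1, one_mul, hvu]
  · obtain ⟨hfd, hfr⟩ := hrelfd D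
    let ψ : (Fin (D + 1) → ℂ) →ₗ[QB] ℂ :=
      (LinearMap.mulLeft QB (((Real.exp 1 : ℝ) : ℂ) ^ (j₀ : ℕ))) ∘ₗ LinearMap.proj j₀
    refine ⟨(relationsE D).map ψ, inferInstance, (Submodule.finrank_map_le _ _).trans hfr, ?_⟩
    intro z
    constructor
    · rintro ⟨y, hy, rfl⟩
      refine ⟨⟨y j₀, hy.1 j₀, rfl⟩, fun j => if j = j₀ then 0 else -(y j), fun j => ?_, ?_, ?_⟩
      · by_cases hj : j = j₀
        · simp only [hj, if_true]; exact periods1.zero_mem
        · simp only [hj, if_false]; exact periods1.neg_mem (hy.1 j)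
      · simp
      · have h1 := hy.2
        rw [← Finset.add_sum_erase Finset.univ _ (Finset.mem_univ j₀)] at h1
        rw [← Finset.add_sum_erase Finset.univ (fun j : Fin (D + 1) => ((Real.exp 1 : ℝ) : ℂ) ^ (j : ℕ) *
          (if j = j₀ then 0 else -(y j))) (Finset.mem_univ j₀)]
        simp only [if_true, mul_zero, zero_add]
        have h2 : ∑ j ∈ Finset.univ.erase j₀, ((Real.exp 1 : ℝ) : ℂ) ^ (j : ℕ) *
            (if j = j₀ then 0 else -(y j)) =
            -∑ j ∈ Finset.univ.erase j₀, ((Real.exp 1 : ℝ) : ℂ) ^ (j : ℕ) * y j := by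
          rw [← Finset.sum_neg_distrib]
          refine Finset.sum_congr rfl fun j hj => ?_
          rw [if_neg (Finset.mem_erase.mp hj).1]
          ring
        rw [h2]
        change ((Real.exp 1 : ℝ) : ℂ) ^ (j₀ : ℕ) * y j₀ = _
        linear_combination h1
    · rintro ⟨⟨y₀, hy₀, hz⟩, y, hy, hyj, hz'⟩
      refine ⟨fun j => if j = j₀ then y₀ else -(y j), ⟨fun j => ?_, ?_⟩, ?_⟩
      · by_cases hj : j = j₀
        · simp only [hj, if_true]; exact hy₀
        · simp only [hj, if_false]; exact periods1.neg_mem (hy j)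
      · rw [← Finset.add_sum_erase Finset.univ _ (Finset.mem_univ j₀)]
        rw [← Finset.add_sum_erase Finset.univ _ (Finset.mem_univ j₀), hyj, mul_zero, zero_add]
          at hz'
        have h2 : ∑ j ∈ Finset.univ.erase j₀, ((Real.exp 1 : ℝ) : ℂ) ^ (j : ℕ) *
            (if j = j₀ then y₀ else -(y j)) =
            -∑ j ∈ Finset.univ.erase j₀, ((Real.exp 1 : ℝ) : ℂ) ^ (j : ℕ) * y j := by
          rw [← Finset.sum_neg_distrib]
          refine Finset.sum_congr rfl fun j hj => ?_
          rw [if_neg (Finset.mem_erase.mp hj).1]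
          ring
        rw [h2, ← hz']
        change ((Real.exp 1 : ℝ) : ℂ) ^ (j₀ : ℕ) * (if j₀ = j₀ then y₀ else -(y j₀)) + -z = 0
        rw [if_pos rfl, ← hz, add_neg_cancel]
      · change ((Real.exp 1 : ℝ) : ℂ) ^ (j₀ : ℕ) * (if j₀ = j₀ then y₀ else -(y j₀)) = z
        rw [if_pos rfl, hz]

end Pool.Agent.Results.MP_2cf66e_nt.LinearDisjointness
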