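import Pool.Agent.HP778.KZ5
import Pool.Agent.H340R2.LW
import Pool.Agent.T6.H39.TR.Grow

/-!
# Periods of dimension one are sparse among the polynomials in `e`

Let `𝒫₁` be the space of all linear combinations, with algebraic coefficients, of the absolutely
convergent integrals `∫_σ P(x) / Q(x) dx` of the problem in dimension `n = 1`. If `e` is a period then
so are all the numbers `y_1 P_1(e) + ⋯ + y_m P_m(e)` for periods `y_j` and polynomials `P_j` with
algebraic coefficients. We show that only very few of them are in `𝒫₁`: for arbitrary complex numbers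
`y_1, ..., y_m` the intersection of `𝒫₁` with the space of all such numbers with `deg P_j ≤ D` has
dimension at most `2 √(m D) + m`. In particular at most `2 √D + 1` of the numbers
`y, y e, y e ^ 2, ..., y e ^ D` are in `𝒫₁`, for each `y ≠ 0` (for instance `y = 1`).
The same holds for the exponential polynomials with algebraic exponents: the number of the elements
`β` of a box in a lattice of rank `r` of algebraic numbers with `y e ^ β ∈ 𝒫₁` has at most the order of
the square root of the number of all the elements of the box.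

The reason is the following inequality for all finite dimensional spaces `A`, `F` of complex numbers
over the field of algebraic numbers: `dim A * dim (F ∩ 𝒫₁) ≤ dim (A F) + dim A (dim A - 1)`, where
`A F` is the span of the products. It follows from the hyperplane case of the linear subgroup theorem
(Waldschmidt, Roy; starting files): the vectors `(x_1, ..., x_d)` of elements of `F ∩ 𝒫₁` are mapped to
`∑ b_i x_i ∈ A F` (`b_1, ..., b_d` a basis of `A`), and the kernel of this map has dimension at most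
`d (d - 1)`. For exponential polynomials `dim A` and `dim (A F)` are computed by the theorem of
Lindemann and Weierstrass.
-/

set_option autoImplicit false

namespace Pool.Agent.Results.MP_2cf66e_nt.SparsePolynomials

open Module Finset Pool.Agent.HP778 Pool.Agent.HP778.KZ
open Pool.Agent.H301R2.SSE (QB mem_QB Lt)
open Pool.Agent.T6.H39.TR
open scoped Pointwise

/-- The numbers `y_1 P_1(θ) + ⋯ + y_m P_m(θ)`, `P_j` polynomials of degree at most `D` with algebraic
coefficients. -/
noncomputable def polys (θ : ℂ) {m : ℕ} (y : Fin m → ℂ) (D : ℕ) :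
    Submodule (algebraicClosure ℚ ℂ) ℂ :=
  Submodule.span (algebraicClosure ℚ ℂ)
    (Set.range fun p : Fin m × Fin (D + 1) => y p.1 * θ ^ (p.2 : ℕ))

/-- The numbers `∑ a_{j,β} y_j e ^ β`, `a_{j,β}` algebraic, `β ∈ B`. -/
noncomputable def expPolys {m : ℕ} (y : Fin m → ℂ) (B : Finset ℂ) :
    Submodule (algebraicClosure ℚ ℂ) ℂ :=
  Submodule.span (algebraicClosure ℚ ℂ)
    (Set.range fun p : Fin m × B => y p.1 * Complex.exp (p.2 : ℂ))

open Classical in
/-- The box of the numbers `∑ n_i β_i`, `0 ≤ n_i ≤ D`. -/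
noncomputable def box {r : ℕ} (β : Fin r → ℂ) (D : ℕ) : Finset ℂ :=
  Finset.univ.image fun n : Fin r → Fin (D + 1) => ∑ i, ((n i : ℕ) : ℂ) * β i

theorem hyp : Hyper (k := QB) (Ω := ℂ) periods1 := fun κ _ d x a hx ha hxa hcol =>
  hyper_Lt κ d x a hx (fun i j => periods1_le (ha i j)) hxa hcol

theorem e_tr : Transcendental ℚ ((Real.exp 1 : ℝ) : ℂ) :=
  ofReal_transcendental Pool.Agent.H340R2.LW.transcendental_exp_one

theorem indep_pow {θ : ℂ} (hθ : Transcendental ℚ θ) (D : ℕ) :
    LinearIndependent QB (fun j : Fin (D + 1) => θ ^ (j : ℕ)) := by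
  have h := ((transcendental_iff_injective.mp (tr_QB hθ)))
  have h2 : LinearIndependent QB (fun n : ℕ => θ ^ n) := by
    have h3 := (Polynomial.basisMonomials QB).linearIndependent.map'
      (Polynomial.aeval θ : Polynomial QB →ₐ[QB] ℂ).toLinearMap
      (LinearMap.ker_eq_bot.mpr h)
    refine (linearIndependent_equiv' (Equiv.refl ℕ) ?_).mp h3
    funext n
    simp [Polynomial.coe_basisMonomials, Polynomial.aeval_monomial]
  exact h2.comp _ Fin.val_injective

theorem exp_indep {ι : Type} [Fintype ι] (β : ι → ℂ) (hβ : Function.Injective β)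
    (halg : ∀ i, IsAlgebraic ℚ (β i)) :
    LinearIndependent QB (fun i => Complex.exp (β i)) := by
  rw [Fintype.linearIndependent_iff]
  intro g hg i
  have h := Pool.Agent.H340R2.LW.lindemann_weierstrass (Finset.univ : Finset ι) β
    (fun i => ((g i : QB) : ℂ)) (fun i _ => halg i) (fun i _ => mem_QB.mp (g i).2)
    (hβ.injOn) (by
      rw [← hg]
      exact Finset.sum_congr rfl fun i _ => by rw [Algebra.smul_def]; rfl) i (Finset.mem_univ _)
  exact Subtype.ext h

instance {θ : ℂ} {m : ℕ} (y : Fin m → ℂ) (D : ℕ) : FiniteDimensional QB (polys θ y D) :=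
  FiniteDimensional.span_of_finite _ (Set.finite_range _)

instance {m : ℕ} (y : Fin m → ℂ) (B : Finset ℂ) : FiniteDimensional QB (expPolys y B) :=
  FiniteDimensional.span_of_finite _ (Set.finite_range _)

theorem finrank_polys_le (θ : ℂ) {m : ℕ} (y : Fin m → ℂ) (D : ℕ) :
    finrank QB (polys θ y D) ≤ m * (D + 1) := by
  refine (finrank_range_le_card _).trans (le_of_eq ?_)
  rw [Fintype.card_prod, Fintype.card_fin, Fintype.card_fin]

theorem finrank_expPolys_le {m : ℕ} (y : Fin m → ℂ) (B : Finset ℂ) :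
    finrank QB (expPolys y B) ≤ m * B.card := by
  refine (finrank_range_le_card _).trans (le_of_eq ?_)
  rw [Fintype.card_prod, Fintype.card_fin, Fintype.card_coe]

/-- `A F` for exponential polynomials -/
theorem mul_le (M B : Finset ℂ) {m : ℕ} (y : Fin m → ℂ) :
    Submodule.span QB (Set.range fun μ : M => Complex.exp (μ : ℂ)) * expPolys y B ≤
      expPolys y (M + B) := by
  unfold expPolys
  rw [Submodule.span_mul_span, Submodule.span_le]
  rintro _ ⟨_, ⟨μ, rfl⟩, _, ⟨⟨j, β⟩, rfl⟩, rfl⟩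
  refine Submodule.subset_span ⟨⟨j, ⟨(μ : ℂ) + β, Finset.add_mem_add μ.2 β.2⟩⟩, ?_⟩
  change y j * Complex.exp ((μ : ℂ) + β) = Complex.exp (μ : ℂ) * (y j * Complex.exp (β : ℂ))
  rw [Complex.exp_add]
  ring

theorem mul_le' (θ : ℂ) (q D : ℕ) {m : ℕ} (y : Fin m → ℂ) :
    Submodule.span QB (Set.range fun i : Fin (q + 1) => θ ^ (i : ℕ)) * polys θ y D ≤
      polys θ y (q + D) := by
  unfold polys
  rw [Submodule.span_mul_span, Submodule.span_le]
  rintro _ ⟨_, ⟨i, rfl⟩, _, ⟨⟨j, l⟩, rfl⟩, rfl⟩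
  refine Submodule.subset_span ⟨⟨j, ⟨(i : ℕ) + l, by have := i.2; have := l.2; omega⟩⟩, ?_⟩
  change y j * θ ^ ((i : ℕ) + l) = θ ^ (i : ℕ) * (y j * θ ^ (l : ℕ))
  rw [pow_add]
  ring

/-- The inequality for exponential polynomials -/
theorem grow_exp (M B : Finset ℂ) (hM : ∀ μ ∈ M, IsAlgebraic ℚ μ) {m : ℕ} (y : Fin m → ℂ) :
    M.card * finrank QB (expPolys y B ⊓ periods1 : Submodule QB ℂ) ≤
      m * (M + B).card + M.card * (M.card - 1) := by
  have h1 := exp_indep (fun μ : M => (μ : ℂ)) Subtype.val_injective (fun μ => hM μ μ.2)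
  have h2 := finrank_span_eq_card h1
  rw [Fintype.card_coe] at h2
  have hfd : FiniteDimensional QB (Submodule.span QB (Set.range fun μ : M => Complex.exp (μ : ℂ))) :=
    FiniteDimensional.span_of_finite _ (Set.finite_range _)
  have h3 := grow hyp (Submodule.span QB (Set.range fun μ : M => Complex.exp (μ : ℂ)))
    (expPolys y B)
  rw [h2] at h3
  have h4 := (Submodule.finrank_mono (mul_le M B y)).trans (finrank_expPolys_le y (M + B))
  omega

/-- The inequality for polynomials -/
theorem grow_poly {θ : ℂ} (hθ : Transcendental ℚ θ) (q D : ℕ) {m : ℕ} (y : Fin m → ℂ) :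
    (q + 1) * finrank QB (polys θ y D ⊓ periods1 : Submodule QB ℂ) ≤
      m * (q + D + 1) + (q + 1) * q := by
  have h1 := indep_pow hθ q
  have h2 := finrank_span_eq_card h1
  rw [Fintype.card_fin] at h2
  have hfd : FiniteDimensional QB (Submodule.span QB
      (Set.range fun i : Fin (q + 1) => θ ^ (i : ℕ))) :=
    FiniteDimensional.span_of_finite _ (Set.finite_range _)
  have h3 := grow hyp (Submodule.span QB (Set.range fun i : Fin (q + 1) => θ ^ (i : ℕ)))
    (polys θ y D)
  rw [h2, Nat.add_sub_cancel] at h3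
  have h4 := (Submodule.finrank_mono (mul_le' θ q D y)).trans (finrank_polys_le θ y (q + D))
  omega

theorem poly_bound {θ : ℂ} (hθ : Transcendental ℚ θ) (D : ℕ) {m : ℕ} (y : Fin m → ℂ) :
    finrank QB (polys θ y D ⊓ periods1 : Submodule QB ℂ) ≤ 2 * Nat.sqrt (m * D) + m := by
  have h1 := grow_poly hθ (Nat.sqrt (m * D)) D y
  have h2 : m * D < (Nat.sqrt (m * D) + 1) * (Nat.sqrt (m * D) + 1) := Nat.lt_succ_sqrt _
  generalize Nat.sqrt (m * D) = q at h1 h2 ⊢
  generalize finrank QB (polys θ y D ⊓ periods1 : Submodule QB ℂ) = s at h1 ⊢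
  by_contra hcon
  push Not at hcon
  have h3 : (q + 1) * (2 * q + m + 1) ≤ (q + 1) * s := Nat.mul_le_mul_left _ hcon
  nlinarith

theorem box_card_le {r : ℕ} (β : Fin r → ℂ) (D : ℕ) : (box β D).card ≤ (D + 1) ^ r := by
  classical
  refine Finset.card_image_le.trans (le_of_eq ?_)
  rw [Finset.card_univ, Fintype.card_fun, Fintype.card_fin, Fintype.card_fin]

theorem box_inj {r : ℕ} {β : Fin r → ℂ} (hβ : LinearIndependent ℚ β) (D : ℕ) :
    Function.Injective fun n : Fin r → Fin (D + 1) => ∑ i, ((n i : ℕ) : ℂ) * β i := by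
  intro n n' h
  rw [Fintype.linearIndependent_iff] at hβ
  funext i
  have h1 := hβ (fun i => ((n i : ℕ) : ℚ) - ((n' i : ℕ) : ℚ)) (by
    have h2 : ∑ i, (((n i : ℕ) : ℂ) - ((n' i : ℕ) : ℂ)) * β i = 0 := by
      simp only [sub_mul, Finset.sum_sub_distrib]
      rw [sub_eq_zero]
      exact h
    rw [← h2]
    refine Finset.sum_congr rfl fun i _ => ?_
    rw [Algebra.smul_def]
    simp) i
  have h3 : ((n i : ℕ) : ℚ) = ((n' i : ℕ) : ℚ) := sub_eq_zero.mp h1
  exact Fin.ext (by exact_mod_cast h3)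

theorem box_card {r : ℕ} {β : Fin r → ℂ} (hβ : LinearIndependent ℚ β) (D : ℕ) :
    (box β D).card = (D + 1) ^ r := by
  classical
  unfold box
  rw [Finset.card_image_of_injective _ (box_inj hβ D), Finset.card_univ, Fintype.card_fun,
    Fintype.card_fin, Fintype.card_fin]

theorem box_add {r : ℕ} (β : Fin r → ℂ) (q D : ℕ) : box β q + box β D ⊆ box β (q + D) := by
  classical
  intro z hz
  obtain ⟨a, ha, b, hb, rfl⟩ := Finset.mem_add.mp hz
  obtain ⟨n, -, rfl⟩ := Finset.mem_image.mp ha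
  obtain ⟨n', -, rfl⟩ := Finset.mem_image.mp hb
  refine Finset.mem_image.mpr ⟨fun i => ⟨(n i : ℕ) + n' i, by
    have := (n i).2; have := (n' i).2; omega⟩, Finset.mem_univ _, ?_⟩
  rw [← Finset.sum_add_distrib]
  refine Finset.sum_congr rfl fun i _ => ?_
  push_cast
  ring

theorem box_alg {r : ℕ} {β : Fin r → ℂ} (hβ : ∀ i, IsAlgebraic ℚ (β i)) (D : ℕ) :
    ∀ μ ∈ box β D, IsAlgebraic ℚ μ := by
  classical
  intro μ hμ
  obtain ⟨n, -, rfl⟩ := Finset.mem_image.mp hμ
  exact (IsIntegral.sum _ (fun i _ =>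
    ((isAlgebraic_natCast (R := ℚ) (A := ℂ) (n i)).mul (hβ i)).isIntegral)).isAlgebraic

theorem box_bound {r : ℕ} {β : Fin r → ℂ} (halg : ∀ i, IsAlgebraic ℚ (β i))
    (hβ : LinearIndependent ℚ β) (D : ℕ) {m : ℕ} (y : Fin m → ℂ) :
    finrank QB (expPolys y (box β D) ⊓ periods1 : Submodule QB ℂ) + 1 ≤
      m * (Nat.sqrt D + 2) ^ r + (Nat.sqrt D + 1) ^ r := by
  have h1 := grow_exp (box β (Nat.sqrt D)) (box β D) (box_alg halg _) y
  have h2 : (box β (Nat.sqrt D) + box β D).card ≤ (Nat.sqrt D + D + 1) ^ r :=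
    (Finset.card_le_card (box_add β _ _)).trans (box_card_le β _)
  rw [box_card hβ] at h1
  have h3 : D < (Nat.sqrt D + 1) * (Nat.sqrt D + 1) := Nat.lt_succ_sqrt _
  generalize Nat.sqrt D = q at h1 h2 h3 ⊢
  generalize finrank QB (expPolys y (box β D) ⊓ periods1 : Submodule QB ℂ) = s at h1 ⊢
  have h4 : (q + D + 1) ^ r ≤ (q + 1) ^ r * (q + 2) ^ r := by
    rw [← mul_pow]
    exact Nat.pow_le_pow_left (by nlinarith) r
  have h5 : 0 < (q + 1) ^ r := by positivity
  have h6 : (q + 1) ^ r * s ≤ (q + 1) ^ r * (m * (q + 2) ^ r + ((q + 1) ^ r - 1)) := by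
    calc (q + 1) ^ r * s ≤ _ := h1
      _ ≤ m * ((q + 1) ^ r * (q + 2) ^ r) + (q + 1) ^ r * ((q + 1) ^ r - 1) :=
        Nat.add_le_add_right (Nat.mul_le_mul_left _ (h2.trans h4)) _
      _ = _ := by ring
  have h7 := Nat.le_of_mul_le_mul_left h6 h5
  omega

open Classical in
/-- counting single exponentials -/
theorem count_le {y : ℂ} (hy : y ≠ 0) (B : Finset ℂ) (hB : ∀ μ ∈ B, IsAlgebraic ℚ μ) :
    (B.filter fun β => y * Complex.exp β ∈ periods1).card ≤
      finrank QB (expPolys (fun _ : Fin 1 => y) B ⊓ periods1 : Submodule QB ℂ) := by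
  have h1 := exp_indep (fun β : (B.filter fun β => y * Complex.exp β ∈ periods1) => (β : ℂ))
    Subtype.val_injective (fun β => hB β (Finset.mem_filter.mp β.2).1)
  have h2 : LinearIndependent QB (fun β : (B.filter fun β => y * Complex.exp β ∈ periods1) =>
      y * Complex.exp (β : ℂ)) := by
    refine h1.map' (LinearMap.mulLeft QB y) ?_
    rw [LinearMap.ker_eq_bot]
    intro a b hab
    exact mul_left_cancel₀ hy hab
  have h3 := finrank_span_eq_card h2
  rw [Fintype.card_coe] at h3
  rw [← h3]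
  apply Submodule.finrank_mono
  rw [Submodule.span_le]
  rintro _ ⟨β, rfl⟩
  obtain ⟨hβ, hβ'⟩ := Finset.mem_filter.mp β.2
  exact ⟨Submodule.subset_span ⟨⟨0, ⟨β, hβ⟩⟩, rfl⟩, hβ'⟩

open Classical in
theorem count_pow {θ y : ℂ} (hθ : Transcendental ℚ θ) (hy : y ≠ 0) (D : ℕ) :
    ((Finset.range (D + 1)).filter fun n => y * θ ^ n ∈ periods1).card ≤ 2 * Nat.sqrt D + 1 := by
  have h0 := indep_pow hθ D
  have h1 : LinearIndependent QB (fun n : ((Finset.range (D + 1)).filter
      fun n => y * θ ^ n ∈ periods1) => θ ^ (n : ℕ)) :=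
    h0.comp (fun n : ((Finset.range (D + 1)).filter fun n => y * θ ^ n ∈ periods1) =>
      (⟨(n : ℕ), Finset.mem_range.mp (Finset.mem_filter.mp n.2).1⟩ : Fin (D + 1))) (by
      intro a b hab
      exact Subtype.ext (congrArg Fin.val hab))
  have h2 : LinearIndependent QB (fun n : ((Finset.range (D + 1)).filter
      fun n => y * θ ^ n ∈ periods1) => y * θ ^ (n : ℕ)) := by
    refine h1.map' (LinearMap.mulLeft QB y) ?_
    rw [LinearMap.ker_eq_bot]
    intro a b hab
    exact mul_left_cancel₀ hy hab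
  have h3 := finrank_span_eq_card h2
  rw [Fintype.card_coe] at h3
  rw [← h3]
  have h4 := poly_bound hθ D (fun _ : Fin 1 => y)
  rw [one_mul] at h4
  refine le_trans ?_ h4
  apply Submodule.finrank_mono
  rw [Submodule.span_le]
  rintro _ ⟨n, rfl⟩
  obtain ⟨hn, hn'⟩ := Finset.mem_filter.mp n.2
  exact ⟨Submodule.subset_span ⟨⟨0, ⟨n, Finset.mem_range.mp hn⟩⟩, rfl⟩, hn'⟩

open Classical in
/-- **Main result.** `𝒫₁ = periods1`, dimensions over the field of algebraic numbers.

(1) For all finite dimensional spaces `A`, `F` of complex numbers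
`dim A * dim (F ∩ 𝒫₁) ≤ dim (A F) + dim A (dim A - 1)`.

(2) For `θ` transcendental, in particular `θ = e`, and all complex numbers `y_1, ..., y_m`: the
elements of `𝒫₁` of the form `y_1 P_1(θ) + ⋯ + y_m P_m(θ)` with polynomials `P_j` of degree at most `D`
with algebraic coefficients form a space of dimension at most `2 √(m D) + m`.

(3) If `y ≠ 0` then at most `2 √D + 1` of the numbers `y, y e, ..., y e ^ D` are in `𝒫₁`; the same for
each transcendental number instead of `e`.

(4) For all finite sets `M` of algebraic numbers and `B` of complex numbers, and all complex numbers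
`y_1, ..., y_m`: the space of the elements of `𝒫₁` of the form `∑ a_{j,β} y_j e ^ β`, `β ∈ B`, `a_{j,β}`
algebraic, has a dimension `s` with `|M| s ≤ m |M + B| + |M| (|M| - 1)`.

(5) Let `β_1, ..., β_r` be algebraic numbers linearly independent over `ℚ`, and let `B` be the box of the
numbers `∑ n_i β_i`, `0 ≤ n_i ≤ D`. The same space for `B` has dimension at most
`m (√D + 2) ^ r + (√D + 1) ^ r - 1`, and for each `y ≠ 0` at most `(√D + 2) ^ r + (√D + 1) ^ r - 1` of the
`(D + 1) ^ r` numbers `y e ^ β`, `β ∈ B`, are in `𝒫₁`.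

Here `√` is the integer part of the square root. -/
theorem result :
    (∀ A F : Submodule (algebraicClosure ℚ ℂ) ℂ, FiniteDimensional (algebraicClosure ℚ ℂ) A →
      FiniteDimensional (algebraicClosure ℚ ℂ) F →
      finrank (algebraicClosure ℚ ℂ) A *
          finrank (algebraicClosure ℚ ℂ) (F ⊓ periods1 : Submodule (algebraicClosure ℚ ℂ) ℂ) ≤
        finrank (algebraicClosure ℚ ℂ) (A * F : Submodule (algebraicClosure ℚ ℂ) ℂ) +
          finrank (algebraicClosure ℚ ℂ) A * (finrank (algebraicClosure ℚ ℂ) A - 1)) ∧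
    Transcendental ℚ ((Real.exp 1 : ℝ) : ℂ) ∧
    (∀ θ : ℂ, Transcendental ℚ θ → ∀ (m : ℕ) (y : Fin m → ℂ) (D : ℕ),
      finrank (algebraicClosure ℚ ℂ)
        (polys θ y D ⊓ periods1 : Submodule (algebraicClosure ℚ ℂ) ℂ) ≤
          2 * Nat.sqrt (m * D) + m) ∧
    (∀ θ y : ℂ, Transcendental ℚ θ → y ≠ 0 → ∀ D : ℕ,
      ((Finset.range (D + 1)).filter fun n => y * θ ^ n ∈ periods1).card ≤ 2 * Nat.sqrt D + 1) ∧
    (∀ (M B : Finset ℂ), (∀ μ ∈ M, IsAlgebraic ℚ μ) → ∀ (m : ℕ) (y : Fin m → ℂ),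
      M.card * finrank (algebraicClosure ℚ ℂ)
        (expPolys y B ⊓ periods1 : Submodule (algebraicClosure ℚ ℂ) ℂ) ≤
          m * (M + B).card + M.card * (M.card - 1)) ∧
    (∀ (r : ℕ) (β : Fin r → ℂ), (∀ i, IsAlgebraic ℚ (β i)) → LinearIndependent ℚ β → ∀ D : ℕ,
      (box β D).card = (D + 1) ^ r ∧
      (∀ (m : ℕ) (y : Fin m → ℂ), finrank (algebraicClosure ℚ ℂ)
        (expPolys y (box β D) ⊓ periods1 : Submodule (algebraicClosure ℚ ℂ) ℂ) + 1 ≤
          m * (Nat.sqrt D + 2) ^ r + (Nat.sqrt D + 1) ^ r) ∧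
      ∀ y : ℂ, y ≠ 0 → ((box β D).filter fun γ => y * Complex.exp γ ∈ periods1).card + 1 ≤
        (Nat.sqrt D + 2) ^ r + (Nat.sqrt D + 1) ^ r) := by
  refine ⟨fun A F hA hF => grow hyp A F, e_tr, fun θ hθ m y D => poly_bound hθ D y,
    fun θ y hθ hy D => count_pow hθ hy D, fun M B hM m y => ?_, fun r β halg hβ D =>
      ⟨box_card hβ D, fun m y => box_bound halg hβ D y, fun y hy => ?_⟩⟩
  · exact grow_exp M B hM y
  · have h1 := count_le hy (box β D) (box_alg halg D)
    have h2 := box_bound halg hβ D (fun _ : Fin 1 => y)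
    rw [one_mul] at h2
    omega

end Pool.Agent.Results.MP_2cf66e_nt.SparsePolynomials
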